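import Pool.Agent.Helper29.HP.Defs

set_option autoImplicit false

/-!
Project VE (MP_ffd2c1_ag, mechanism 2): cubic fourfolds containing a plane which are birational to
a Verra fourfold with a rational second projection.  Definitions shared by all pieces.
`a i j k l` are the coefficients of the form `F(x, u)` of bidegree `(2, 2)`, symmetric in `(i, j)`
and in `(k, l)`.
-/

namespace Pool.Agent.Helper89.VE

open MvPolynomial Pool.Agent.Helper29.HP

/-- the coefficients of a form of bidegree `(2, 2)` -/
abbrev Cof : Type := Fin 3 → Fin 3 → Fin 3 → Fin 3 → ℂ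

/-- symmetry of the coefficients -/
def Cof.Symm (a : Cof) : Prop := (∀ i j k l, a i j k l = a j i k l) ∧ ∀ i j k l, a i j k l = a i j l k

/-- the quadratic form in the second group of variables -/
noncomputable def MX (a : Cof) : Matrix (Fin 3) (Fin 3) P3 :=
  Matrix.of fun k l => ∑ i, ∑ j, C (a i j k l) * (X i * X j)

/-- the quadratic form in the first group of variables -/
noncomputable def NU (a : Cof) : Matrix (Fin 3) (Fin 3) P3 :=
  Matrix.of fun i j => ∑ k, ∑ l, C (a i j k l) * (X k * X l)

/-- orthogonal sum with the form `w ^ 2` -/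
def bord {R : Type*} [CommRing R] (M : Matrix (Fin 3) (Fin 3) R) : Matrix (Fin 4) (Fin 4) R :=
  !![M 0 0, M 0 1, M 0 2, 0; M 1 0, M 1 1, M 1 2, 0; M 2 0, M 2 1, M 2 2, 0; 0, 0, 0, 1]

section

variable {R : Type*} [CommRing R] (M : Matrix (Fin 3) (Fin 3) R)

theorem bord_castSucc (i j : Fin 3) : bord M i.castSucc j.castSucc = M i j := by
  fin_cases i <;> fin_cases j <;> rfl

theorem bord_symm (hM : M.IsSymm) : (bord M).IsSymm := by
  apply Matrix.IsSymm.ext
  intro i j
  have h := fun k l => hM.apply k l
  fin_cases i <;> fin_cases j <;> simp [bord, h]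

theorem bord_map {S : Type*} [CommRing S] (f : R →+* S) : (bord M).map f = bord (M.map f) := by
  ext i j
  fin_cases i <;> fin_cases j <;> simp [bord]

theorem bord_det : (bord M).det = M.det := by
  rw [Matrix.det_succ_row_zero, Matrix.det_fin_three]
  simp only [Fin.sum_univ_four, Matrix.det_fin_three]
  simp [bord, Fin.succAbove]
  ring

theorem bord_adj (j : Fin 3) : (bord M).adjugate j.castSucc j.castSucc = M.adjugate j j := by
  rw [Matrix.adjugate_apply, Matrix.adjugate_apply, Matrix.det_succ_row_zero,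
    Matrix.det_fin_three]
  simp only [Fin.sum_univ_four, Matrix.det_fin_three]
  fin_cases j
  all_goals
    simp [bord, Fin.succAbove, Matrix.updateRow_apply, Fin.ext_iff]
    try ring

theorem bord_form (y y' : Fin 4 → R) : y ⬝ᵥ (bord M).mulVec y' =
    (fun i : Fin 3 => y i.castSucc) ⬝ᵥ M.mulVec (fun i : Fin 3 => y' i.castSucc) + y 3 * y' 3 := by
  simp only [dotProduct, Matrix.mulVec, Fin.sum_univ_four, Fin.sum_univ_three, bord]
  simp

end

/-- the quadric surface bundle of the first projection of `F(x, u) + w ^ 2 = 0` -/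
noncomputable def VX (a : Cof) : Matrix (Fin 4) (Fin 4) P3 := bord (MX a)

/-- the quadric surface bundle of the second projection of `F(x, u) + w ^ 2 = 0` -/
noncomputable def VU (a : Cof) : Matrix (Fin 4) (Fin 4) P3 := bord (NU a)

theorem MX_symm {a : Cof} (ha : a.Symm) : (MX a).IsSymm := by
  apply Matrix.IsSymm.ext
  intro k l
  simp only [MX, Matrix.of_apply]
  exact Finset.sum_congr rfl fun i _ => Finset.sum_congr rfl fun j _ => by rw [ha.2]

theorem NU_symm {a : Cof} (ha : a.Symm) : (NU a).IsSymm := by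
  apply Matrix.IsSymm.ext
  intro i j
  simp only [NU, Matrix.of_apply]
  exact Finset.sum_congr rfl fun k _ => Finset.sum_congr rfl fun l _ => by rw [ha.1]

theorem MX_hom (a : Cof) (k l : Fin 3) : (MX a k l).IsHomogeneous 2 := by
  have h0 : MX a k l = ∑ i, ∑ j, C (a i j k l) * (X i * X j) := rfl
  rw [h0]
  apply IsHomogeneous.sum
  intro i _
  apply IsHomogeneous.sum
  intro j _
  have h1 : (X i * X j : P3).IsHomogeneous (1 + 1) :=
    (isHomogeneous_X ℂ i).mul (isHomogeneous_X ℂ j)
  have h2 : (C (a i j k l) * (X i * X j) : P3).IsHomogeneous (0 + (1 + 1)) :=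
    (isHomogeneous_C (Fin 3) (a i j k l)).mul h1
  simpa using h2

theorem NU_hom (a : Cof) (i j : Fin 3) : (NU a i j).IsHomogeneous 2 := by
  have h0 : NU a i j = ∑ k, ∑ l, C (a i j k l) * (X k * X l) := rfl
  rw [h0]
  apply IsHomogeneous.sum
  intro k _
  apply IsHomogeneous.sum
  intro l _
  have h1 : (X k * X l : P3).IsHomogeneous (1 + 1) :=
    (isHomogeneous_X ℂ k).mul (isHomogeneous_X ℂ l)
  have h2 : (C (a i j k l) * (X k * X l) : P3).IsHomogeneous (0 + (1 + 1)) :=
    (isHomogeneous_C (Fin 3) (a i j k l)).mul h1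
  simpa using h2

theorem VX_symm {a : Cof} (ha : a.Symm) : (VX a).IsSymm := bord_symm _ (MX_symm ha)
theorem VU_symm {a : Cof} (ha : a.Symm) : (VU a).IsSymm := bord_symm _ (NU_symm ha)
theorem VX_det (a : Cof) : (VX a).det = (MX a).det := bord_det _
theorem VU_det (a : Cof) : (VU a).det = (NU a).det := bord_det _
theorem VX_adj (a : Cof) (j : Fin 3) :
    (VX a).adjugate j.castSucc j.castSucc = (MX a).adjugate j j := bord_adj _ j
theorem VU_adj (a : Cof) (j : Fin 3) :
    (VU a).adjugate j.castSucc j.castSucc = (NU a).adjugate j j := bord_adj _ j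

end Pool.Agent.Helper89.VE
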