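import Mathlib

set_option autoImplicit false

namespace Pool.Agent.Helper89.VE

open IntermediateField

/-- rational parametrisation of a quadric surface with a rational point -/
theorem quad_param {F K : Type*} [Field F] [Field K] [Algebra F K] [CharZero K]
    (L0 : IntermediateField F K) (q : Matrix (Fin 4) (Fin 4) K) (hq : q.IsSymm)
    (hqL : ∀ i j, q i j ∈ L0) (e : Fin 4 → K) (heL : ∀ i, e i ∈ L0)
    (he0 : e ⬝ᵥ q.mulVec e = 0) (Y : Fin 4 → K) (hY : Y ⬝ᵥ q.mulVec Y = 0)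
    (hB : Y ⬝ᵥ q.mulVec e ≠ 0) :
    ∃ (r : Fin 2 → K) (τ : K), τ ≠ 0 ∧
      ∀ L : IntermediateField F K, L0 ≤ L → (∀ i, r i ∈ L) → ∀ i, τ * Y i ∈ L := by
  have hBs : e ⬝ᵥ q.mulVec Y = Y ⬝ᵥ q.mulVec e := by
    rw [Matrix.dotProduct_mulVec, ← Matrix.mulVec_transpose, hq, dotProduct_comm]
  have he : e ≠ 0 := by
    rintro rfl
    exact hB (by simp)
  obtain ⟨j, hj⟩ := Function.ne_iff.mp he
  have hj : e j ≠ 0 := hj
  obtain ⟨W, hW⟩ : ∃ W : Fin 4 → K, W = Y - (Y j / e j) • e := ⟨_, rfl⟩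
  have hWj : W j = 0 := by
    rw [hW, Pi.sub_apply, Pi.smul_apply, smul_eq_mul, div_mul_cancel₀ _ hj, sub_self]
  have hWe : W ⬝ᵥ q.mulVec e = Y ⬝ᵥ q.mulVec e := by
    rw [hW, sub_dotProduct, smul_dotProduct, he0, smul_zero, sub_zero]
  have hW0 : W ≠ 0 := by
    rintro h
    rw [h, zero_dotProduct] at hWe
    exact hB hWe.symm
  obtain ⟨m, hm⟩ := Function.ne_iff.mp hW0
  have hm : W m ≠ 0 := hm
  have hmj : m ≠ j := by
    rintro rfl
    exact hm hWj
  obtain ⟨m', hm'⟩ := Fin.exists_succAbove_eq hmj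
  obtain ⟨v, hv⟩ : ∃ v : Fin 4 → K, v = (W m)⁻¹ • W := ⟨_, rfl⟩
  have hvj : v j = 0 := by rw [hv, Pi.smul_apply, hWj, smul_zero]
  have hvm : v m = 1 := by rw [hv, Pi.smul_apply, smul_eq_mul, inv_mul_cancel₀ hm]
  obtain ⟨c, hc⟩ : ∃ c : K, c = (W m)⁻¹ * (Y j / e j) := ⟨_, rfl⟩
  have hY1 : (W m)⁻¹ • Y = v + c • e := by
    have hYW : Y = W + (Y j / e j) • e := by rw [hW, sub_add_cancel]
    conv_lhs => rw [hYW]
    rw [hv, hc, smul_add, smul_smul]
  have hve : v ⬝ᵥ q.mulVec e ≠ 0 := by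
    rw [hv, smul_dotProduct, hWe, smul_eq_mul]
    exact mul_ne_zero (inv_ne_zero hm) hB
  have hev : e ⬝ᵥ q.mulVec v = v ⬝ᵥ q.mulVec e := by
    rw [Matrix.dotProduct_mulVec, ← Matrix.mulVec_transpose, hq, dotProduct_comm]
  have hc2 : c = -(v ⬝ᵥ q.mulVec v) / (2 * (v ⬝ᵥ q.mulVec e)) := by
    have h1 : (v + c • e) ⬝ᵥ q.mulVec (v + c • e) = 0 := by
      rw [← hY1, Matrix.mulVec_smul, smul_dotProduct, dotProduct_smul, hY]
      simp
    rw [Matrix.mulVec_add, Matrix.mulVec_smul, add_dotProduct, dotProduct_add, dotProduct_add,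
      smul_dotProduct, smul_dotProduct, dotProduct_smul, dotProduct_smul, he0, hev] at h1
    simp only [smul_eq_mul, mul_zero, add_zero] at h1
    rw [eq_div_iff (mul_ne_zero two_ne_zero hve)]
    linear_combination h1
  refine ⟨fun i => v (j.succAbove (m'.succAbove i)), (W m)⁻¹, inv_ne_zero hm, ?_⟩
  intro L hL hr
  have hvL : ∀ i, v i ∈ L := by
    intro i
    by_cases hij : i = j
    · rw [hij, hvj]; exact zero_mem _
    obtain ⟨i', hi'⟩ := Fin.exists_succAbove_eq hij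
    by_cases him : i' = m'
    · rw [← hi', him, hm', hvm]; exact one_mem _
    · obtain ⟨i'', hi''⟩ := Fin.exists_succAbove_eq him
      rw [← hi', ← hi'']
      exact hr i''
  have hdot : ∀ x y : Fin 4 → K, (∀ i, x i ∈ L) → (∀ i, y i ∈ L) → x ⬝ᵥ q.mulVec y ∈ L := by
    intro x y hx hy
    rw [dotProduct]
    refine sum_mem fun i _ => mul_mem (hx i) ?_
    rw [Matrix.mulVec, dotProduct]
    exact sum_mem fun k _ => mul_mem (hL (hqL i k)) (hy k)
  have hcL : c ∈ L := by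
    rw [hc2]
    refine div_mem (neg_mem (hdot _ _ hvL hvL)) (mul_mem ?_ (hdot _ _ hvL fun i => hL (heL i)))
    exact ofNat_mem L 2
  intro i
  have h1 := congrFun hY1 i
  simp only [Pi.smul_apply, Pi.add_apply, smul_eq_mul] at h1
  rw [h1]
  exact add_mem (hvL i) (mul_mem hcL (hL (heL i)))

end Pool.Agent.Helper89.VE
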