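import Pool.Agent.Helper89.VE.Defs
import Pool.Agent.Helper89.VE.Quad


set_option autoImplicit false

namespace Pool.Agent.Helper89.VE

open MvPolynomial Pool.Agent.Helper29.HP IntermediateField

/-- coordinates of the fourfold `F(x, u) + w ^ 2 = 0` -/
abbrev P34 : Type := MvPolynomial (Fin 3 ⊕ Fin 4) ℂ

/-- the coordinates `(x, w)` -/
def cx {R : Type*} (z : Fin 3 → R) (y : Fin 4 → R) : Fin 4 → R := ![z 0, z 1, z 2, y 3]

/-- the coordinates `u` -/
def cu {R : Type*} (y : Fin 4 → R) : Fin 3 → R := fun i => y i.castSucc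

theorem cx_castSucc {R : Type*} (z : Fin 3 → R) (y : Fin 4 → R) (i : Fin 3) :
    cx z y i.castSucc = z i := by
  fin_cases i <;> rfl

theorem cx_last {R : Type*} (z : Fin 3 → R) (y : Fin 4 → R) : cx z y 3 = y 3 := rfl

theorem map_bord_aeval {R : Type*} [CommRing R] [Algebra ℂ R] (M : Matrix (Fin 3) (Fin 3) P3)
    (z : Fin 3 → R) : (bord M).map (aeval z) = bord (M.map (aeval z)) :=
  bord_map M ((aeval z : P3 →ₐ[ℂ] R) : P3 →+* R)

/-- the two ways to write the form of bidegree `(2, 2)` -/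
theorem MX_NU {R : Type*} [CommRing R] [Algebra ℂ R] (a : Cof) (z u : Fin 3 → R) :
    u ⬝ᵥ ((MX a).map (aeval z)).mulVec u = z ⬝ᵥ ((NU a).map (aeval u)).mulVec z := by
  simp only [dotProduct, Matrix.mulVec, Matrix.map_apply, MX, NU, Matrix.of_apply, map_sum,
    map_mul, aeval_X, aeval_C, Finset.mul_sum, Finset.sum_mul]
  simp only [Fin.sum_univ_three]
  ring

theorem VX_VU {R : Type*} [CommRing R] [Algebra ℂ R] (a : Cof) (z : Fin 3 → R) (y : Fin 4 → R) :
    y ⬝ᵥ ((VX a).map (aeval z)).mulVec y =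
      cx z y ⬝ᵥ ((VU a).map (aeval (cu y))).mulVec (cx z y) := by
  rw [VX, VU, map_bord_aeval, map_bord_aeval, bord_form, bord_form, cx_last]
  have h : (fun i : Fin 3 => cx z y i.castSucc) = z := funext fun i => cx_castSucc z y i
  rw [h]
  have h2 := MX_NU a z (cu y)
  change cu y ⬝ᵥ ((MX a).map (aeval z)).mulVec (cu y) + _ = _
  rw [h2]

/-- the bilinear value of the section at the point -/
noncomputable def BG (a : Cof) (s : Fin 4 → P3) : P34 :=
  ∑ i, cx (fun i => X (Sum.inl i) : Fin 3 → P34) (fun i => X (Sum.inr i)) i *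
    rename (fun k : Fin 3 => Sum.inr k.castSucc) (((VU a).mulVec s) i)

theorem aeval_BG {R : Type*} [CommRing R] [Algebra ℂ R] (a : Cof) (s : Fin 4 → P3)
    (z : Fin 3 → R) (y : Fin 4 → R) : aeval (Sum.elim z y) (BG a s) =
      cx z y ⬝ᵥ ((VU a).map (aeval (cu y))).mulVec (fun i => aeval (cu y) (s i)) := by
  rw [BG, map_sum, dotProduct]
  refine Finset.sum_congr rfl fun i _ => ?_
  rw [map_mul, aeval_rename]
  have h1 : (Sum.elim z y ∘ fun k : Fin 3 => Sum.inr k.castSucc) = cu y := rfl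
  rw [h1]
  congr 1
  · fin_cases i <;> simp [cx]
  · rw [Matrix.mulVec, dotProduct, map_sum, Matrix.mulVec, dotProduct]
    exact Finset.sum_congr rfl fun k _ => by rw [map_mul, Matrix.map_apply]

theorem aeval_BG' {R : Type*} [CommRing R] [Algebra ℂ R] (a : Cof) (s : Fin 4 → P3)
    (z : Fin 3 → R) (y : Fin 4 → R) : aeval (Sum.elim z y) (BG a s) =
      z ⬝ᵥ ((NU a).map (aeval (cu y))).mulVec (fun i => aeval (cu y) (s i.castSucc)) +
        y 3 * aeval (cu y) (s 3) := by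
  rw [aeval_BG, VU, map_bord_aeval, bord_form, cx_last]
  have h : (fun i : Fin 3 => cx z y i.castSucc) = z := funext fun i => cx_castSucc z y i
  rw [h]

theorem aeval_smul_hom' {σ : Type*} {p : MvPolynomial σ ℂ} {d : ℕ} (hp : p.IsHomogeneous d)
    {K : Type*} [CommRing K] [Algebra ℂ K] (a : K) (z : σ → K) :
    aeval (a • z) p = a ^ d * aeval z p := by
  rw [aeval_def, eval₂_eq, aeval_def, eval₂_eq, Finset.mul_sum]
  refine Finset.sum_congr rfl fun m hm => ?_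
  have hn := hp.degree_eq_sum_deg_support hm
  simp only [Pi.smul_apply, smul_eq_mul, mul_pow]
  rw [Finset.prod_mul_distrib, Finset.prod_pow_eq_pow_sum, ← hn]
  ring

theorem BG_smul (a : Cof) {d : ℕ} (s : Fin 4 → P3)
    (hs : ∀ i, (s i).IsHomogeneous (d + (![0, 0, 0, 1] : Fin 4 → ℕ) i)) (R : Type*) [CommRing R]
    [Algebra ℂ R] (z : Fin 3 → R) (t : R) (y : Fin 4 → R) :
    aeval (Sum.elim z (t • y)) (BG a s) = t ^ (d + 2) * aeval (Sum.elim z y) (BG a s) := by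
  rw [aeval_BG', aeval_BG']
  have hc : cu (t • y) = t • cu y := rfl
  rw [hc]
  have hN : (NU a).map (aeval (t • cu y)) = t ^ 2 • (NU a).map (aeval (cu y)) := by
    ext i j
    rw [Matrix.map_apply, aeval_smul_hom' (NU_hom a i j), Matrix.smul_apply, Matrix.map_apply,
      smul_eq_mul]
  have hs1 : (fun i : Fin 3 => aeval (t • cu y) (s i.castSucc)) =
      t ^ d • fun i : Fin 3 => aeval (cu y) (s i.castSucc) := by
    funext i
    have h1 := hs i.castSucc
    have h2 : (![0, 0, 0, 1] : Fin 4 → ℕ) i.castSucc = 0 := by fin_cases i <;> rfl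
    rw [h2, add_zero] at h1
    rw [aeval_smul_hom' h1, Pi.smul_apply, smul_eq_mul]
  have hs3 : aeval (t • cu y) (s 3) = t ^ (d + 1) * aeval (cu y) (s 3) :=
    aeval_smul_hom' (hs 3) t (cu y)
  rw [hN, hs1, hs3, Matrix.smul_mulVec, Matrix.mulVec_smul, dotProduct_smul, dotProduct_smul,
    Pi.smul_apply]
  simp only [smul_eq_mul]
  ring

theorem exists_eval_ne {σ : Type*} (p : MvPolynomial σ ℂ) (hp : p ≠ 0) :
    ∃ z : σ → ℂ, eval z p ≠ 0 := by
  by_contra h
  push Not at h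
  exact hp (MvPolynomial.funext fun x => by rw [h, map_zero])

theorem BG_ne (a : Cof) (s : Fin 4 → P3)
    (h0 : s ⬝ᵥ (VU a).mulVec s = 0) (hs0 : s ≠ 0) (hdet : (NU a).det ≠ 0) (D : P3) (hD : D ≠ 0)
    {n : ℕ} (hDh : D.IsHomogeneous n) :
    ∃ (z : Fin 3 → ℂ) (y : Fin 4 → ℂ), z 0 = 1 ∧ eval z D ≠ 0 ∧
      y ⬝ᵥ ((VX a).map (aeval z)).mulVec y = 0 ∧ aeval (Sum.elim z y) (BG a s) ≠ 0 := by
  obtain ⟨i0, hi0⟩ := Function.ne_iff.mp hs0
  have hi0 : s i0 ≠ 0 := hi0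
  obtain ⟨u, hu⟩ := exists_eval_ne _ (mul_ne_zero hdet hi0)
  rw [map_mul] at hu
  have hu1 : eval u (NU a).det ≠ 0 := left_ne_zero_of_mul hu
  have hu2 : eval u (s i0) ≠ 0 := right_ne_zero_of_mul hu
  -- the linear form
  obtain ⟨N, hN⟩ : ∃ N : Matrix (Fin 3) (Fin 3) ℂ, N = (NU a).map (aeval u) := ⟨_, rfl⟩
  have hNdet : N.det ≠ 0 := by
    have : N.det = eval u (NU a).det := by
      rw [hN]
      exact (RingHom.map_det (eval u) (NU a)).symm
    rw [this]; exact hu1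
  obtain ⟨e, he⟩ : ∃ e : Fin 3 → ℂ, e = fun i => aeval u (s i.castSucc) := ⟨_, rfl⟩
  obtain ⟨t, ht⟩ : ∃ t : ℂ, t = aeval u (s 3) := ⟨_, rfl⟩
  have hiso : e ⬝ᵥ N.mulVec e + t * t = 0 := by
    have h1 := congrArg (aeval u : P3 →ₐ[ℂ] ℂ) h0
    rw [VU, bord_form, map_zero, map_add, map_mul] at h1
    rw [← h1, ht, he, hN]
    congr 1
    rw [dotProduct, dotProduct, map_sum]
    refine Finset.sum_congr rfl fun i _ => ?_
    rw [map_mul, Matrix.mulVec, dotProduct, Matrix.mulVec, dotProduct, map_sum]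
    congr 1
    exact Finset.sum_congr rfl fun j _ => by rw [map_mul, Matrix.map_apply]
  have he0 : e ≠ 0 := by
    intro h
    rw [h, zero_dotProduct, zero_add] at hiso
    have ht0 : t = 0 := by simpa using hiso
    apply hu2
    rcases Fin.eq_castSucc_or_eq_last i0 with ⟨j, rfl⟩ | h3
    · have := congrFun h j
      rw [he] at this
      exact this
    · rw [h3]
      rw [ht] at ht0
      exact ht0
  obtain ⟨A, hA⟩ : ∃ A : Fin 3 → ℂ, A = N.mulVec e := ⟨_, rfl⟩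
  have hA0 : A ≠ 0 := by
    intro h
    apply he0
    rw [h] at hA
    exact Matrix.eq_zero_of_mulVec_eq_zero hNdet hA.symm
  obtain ⟨Al, hAl⟩ : ∃ Al : P3, Al = ∑ i, C (A i) * X i := ⟨_, rfl⟩
  have hAlh : Al.IsHomogeneous 1 := by
    rw [hAl]
    apply IsHomogeneous.sum
    intro i _
    have := (isHomogeneous_C (Fin 3) (A i)).mul (isHomogeneous_X ℂ i)
    simpa using this
  have hAle : ∀ z : Fin 3 → ℂ, eval z Al = z ⬝ᵥ A := by
    intro z
    rw [hAl, map_sum, dotProduct]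
    exact Finset.sum_congr rfl fun i _ => by rw [map_mul, eval_C, eval_X, mul_comm]
  have hAl0 : Al ≠ 0 := by
    intro h
    apply hA0
    funext i
    have := hAle (Pi.single i 1)
    rw [h, map_zero, single_dotProduct, one_mul] at this
    exact this.symm
  obtain ⟨z', hz'⟩ := exists_eval_ne _ (mul_ne_zero (mul_ne_zero hD hAl0) (X_ne_zero (0 : Fin 3)))
  rw [map_mul, map_mul, eval_X] at hz'
  have hz0 : z' 0 ≠ 0 := right_ne_zero_of_mul hz'
  have hzD : eval z' D ≠ 0 := left_ne_zero_of_mul (left_ne_zero_of_mul hz')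
  have hzA : eval z' Al ≠ 0 := right_ne_zero_of_mul (left_ne_zero_of_mul hz')
  obtain ⟨z, hz⟩ : ∃ z : Fin 3 → ℂ, z = (z' 0)⁻¹ • z' := ⟨_, rfl⟩
  have hev : ∀ {q : P3} {m : ℕ}, q.IsHomogeneous m → eval z q = ((z' 0)⁻¹) ^ m * eval z' q := by
    intro q m hq
    rw [hz]
    exact aeval_smul_hom' hq _ _
  have hzD' : eval z D ≠ 0 := by
    rw [hev hDh]; exact mul_ne_zero (pow_ne_zero _ (inv_ne_zero hz0)) hzD
  have hzA' : z ⬝ᵥ A ≠ 0 := by
    rw [← hAle, hev hAlh]; exact mul_ne_zero (pow_ne_zero _ (inv_ne_zero hz0)) hzA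
  have hz1 : z 0 = 1 := by rw [hz, Pi.smul_apply, smul_eq_mul, inv_mul_cancel₀ hz0]
  obtain ⟨w, hw⟩ := IsAlgClosed.exists_pow_nat_eq (-(u ⬝ᵥ ((MX a).map (aeval z)).mulVec u))
    (n := 2) (by norm_num)
  have hV : ∀ w' : ℂ, w' ^ 2 = -(u ⬝ᵥ ((MX a).map (aeval z)).mulVec u) →
      (Fin.snoc u w' : Fin 4 → ℂ) ⬝ᵥ ((VX a).map (aeval z)).mulVec (Fin.snoc u w') = 0 := by
    intro w' hw'
    rw [VX, map_bord_aeval, bord_form]
    have h1 : (fun i : Fin 3 => (Fin.snoc u w' : Fin 4 → ℂ) i.castSucc) = u := by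
      funext i
      exact Fin.snoc_castSucc (α := fun _ => ℂ) w' u i
    have h2 : (Fin.snoc u w' : Fin 4 → ℂ) 3 = w' := Fin.snoc_last (α := fun _ => ℂ) w' u
    rw [h1, h2, ← sq, hw']
    ring
  have hG : ∀ w' : ℂ, aeval (Sum.elim z (Fin.snoc u w' : Fin 4 → ℂ)) (BG a s) =
      z ⬝ᵥ A + w' * t := by
    intro w'
    have h1 : cu (Fin.snoc u w' : Fin 4 → ℂ) = u := by
      funext i
      exact Fin.snoc_castSucc (α := fun _ => ℂ) w' u i
    have h2 : (Fin.snoc u w' : Fin 4 → ℂ) 3 = w' := Fin.snoc_last (α := fun _ => ℂ) w' u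
    rw [aeval_BG', h1, h2, hA, hN, he, ht]
  by_cases h1 : aeval (Sum.elim z (Fin.snoc u w : Fin 4 → ℂ)) (BG a s) ≠ 0
  · exact ⟨z, Fin.snoc u w, hz1, hzD', hV w hw, h1⟩
  · push Not at h1
    refine ⟨z, Fin.snoc u (-w), hz1, hzD', hV (-w) (by rw [neg_sq, hw]), ?_⟩
    intro h2
    rw [hG] at h1 h2
    apply hzA'
    have : 2 * (z ⬝ᵥ A) = 0 := by linear_combination h1 + h2
    simpa using this

theorem aeval_mem_field {σ K : Type*} [Field K] [Algebra ℂ K] (L : IntermediateField ℂ K)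
    (x : σ → K) (hx : ∀ i, x i ∈ L) (p : MvPolynomial σ ℂ) : aeval x p ∈ L := by
  have h : aeval x p = L.val (aeval (fun i => (⟨x i, hx i⟩ : L)) p) := by
    have h1 : aeval x = L.val.comp (aeval (fun i => (⟨x i, hx i⟩ : L))) := by
      apply MvPolynomial.algHom_ext
      intro i
      simp
    rw [h1]; rfl
  rw [h]
  exact (aeval (fun i => (⟨x i, hx i⟩ : L)) p).2

/-- the function field of `F(x, u) + w ^ 2 = 0` is generated by four elements if the second
projection has a rational section -/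
theorem vrat {a : Cof} (ha : a.Symm) {K : Type} [Field K] [Algebra ℂ K] (z : Fin 3 → K)
    (y : Fin 4 → K) (hz0 : z 0 = 1) (hy : y ≠ 0)
    (h0 : y ⬝ᵥ ((VX a).map (aeval z)).mulVec y = 0) {d : ℕ} (s : Fin 4 → P3)
    (hs : ∀ i, (s i).IsHomogeneous (d + (![0, 0, 0, 1] : Fin 4 → ℕ) i))
    (hiso : s ⬝ᵥ (VU a).mulVec s = 0) (hs0 : s ≠ 0) (hdet : (NU a).det ≠ 0)
    (D : P3) (hD : D ≠ 0) {n : ℕ} (hDh : D.IsHomogeneous n)
    (htrans : ∀ (G : P34) (m : ℕ), (∀ (R : Type) [CommRing R] [Algebra ℂ R] (z : Fin 3 → R)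
      (t : R) (y : Fin 4 → R), aeval (Sum.elim z (t • y)) G = t ^ m * aeval (Sum.elim z y) G) →
      aeval (Sum.elim z y) G = 0 → ∀ (z' : Fin 3 → ℂ) (y' : Fin 4 → ℂ), z' 0 = 1 →
      eval z' D ≠ 0 → y' ⬝ᵥ ((VX a).map (aeval z')).mulVec y' = 0 →
      aeval (Sum.elim z' y') G = 0) :
    ∃ (r : Fin 4 → K) (σ : K), σ ≠ 0 ∧ (∀ i, z i ∈ adjoin ℂ (Set.range r)) ∧
      ∀ i, σ * y i ∈ adjoin ℂ (Set.range r) := by
  have : CharZero K := charZero_of_injective_algebraMap (algebraMap ℂ K).injective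
  have hB : aeval (Sum.elim z y) (BG a s) ≠ 0 := by
    intro h
    obtain ⟨z', y', h1, h2, h3, h4⟩ := BG_ne a s hiso hs0 hdet D hD hDh
    exact h4 (htrans _ (d + 2) (fun R _ _ z t y => BG_smul a s hs R z t y) h z' y' h1 h2 h3)
  have hu0 : cu y ≠ 0 := by
    intro hu
    rw [VX, map_bord_aeval, bord_form] at h0
    have h1 : (fun i : Fin 3 => y i.castSucc) = 0 := hu
    rw [h1, zero_dotProduct, zero_add] at h0
    have h2 : y 3 = 0 := by simpa using h0
    apply hy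
    funext i
    rcases Fin.eq_castSucc_or_eq_last i with ⟨j, rfl⟩ | h3
    · exact congrFun h1 j
    · rw [h3]; exact h2
  obtain ⟨k, hk⟩ := Function.ne_iff.mp hu0
  have hk : y k.castSucc ≠ 0 := hk
  obtain ⟨σ, hσ⟩ : ∃ σ : K, σ = (y k.castSucc)⁻¹ := ⟨_, rfl⟩
  have hσ0 : σ ≠ 0 := by rw [hσ]; exact inv_ne_zero hk
  obtain ⟨u, hu⟩ : ∃ u : Fin 3 → K, u = cu (σ • y) := ⟨_, rfl⟩
  have huk : u k = 1 := by
    rw [hu]
    change σ * y k.castSucc = 1
    rw [hσ, inv_mul_cancel₀ hk]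
  obtain ⟨L0, hL0⟩ : ∃ L0 : IntermediateField ℂ K,
    L0 = adjoin ℂ (Set.range fun i : Fin 2 => u (k.succAbove i)) := ⟨_, rfl⟩
  have huL : ∀ i, u i ∈ L0 := by
    intro i
    by_cases hik : i = k
    · rw [hik, huk]; exact one_mem _
    · obtain ⟨j, rfl⟩ := Fin.exists_succAbove_eq hik
      rw [hL0]
      exact subset_adjoin _ _ ⟨j, rfl⟩
  obtain ⟨q, hq⟩ : ∃ q : Matrix (Fin 4) (Fin 4) K, q = (VU a).map (aeval u) := ⟨_, rfl⟩
  have hqs : q.IsSymm := by
    apply Matrix.IsSymm.ext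
    intro i j
    rw [hq, Matrix.map_apply, Matrix.map_apply, (VU_symm ha).apply]
  have hY0 : cx z (σ • y) ⬝ᵥ q.mulVec (cx z (σ • y)) = 0 := by
    rw [hq, hu, ← VX_VU, Matrix.mulVec_smul, smul_dotProduct, dotProduct_smul, h0]
    simp
  have he0 : (fun i => aeval u (s i)) ⬝ᵥ q.mulVec (fun i => aeval u (s i)) = 0 := by
    have h1 := congrArg (aeval u : P3 →ₐ[ℂ] K) hiso
    rw [map_zero] at h1
    rw [← h1, dotProduct, dotProduct, map_sum]
    refine Finset.sum_congr rfl fun i _ => ?_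
    rw [map_mul, Matrix.mulVec, dotProduct, Matrix.mulVec, dotProduct, map_sum]
    congr 1
    exact Finset.sum_congr rfl fun j _ => by rw [map_mul, hq, Matrix.map_apply]
  have hBY : cx z (σ • y) ⬝ᵥ q.mulVec (fun i => aeval u (s i)) ≠ 0 := by
    rw [hq, hu, ← aeval_BG, BG_smul a s hs]
    exact mul_ne_zero (pow_ne_zero _ hσ0) hB
  obtain ⟨r2, τ, hτ, hr⟩ := quad_param L0 q hqs
    (fun i j => by rw [hq, Matrix.map_apply]; exact aeval_mem_field L0 u huL _)
    (fun i => aeval u (s i)) (fun i => aeval_mem_field L0 u huL _) he0 _ hY0 hBY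
  obtain ⟨r, hrdef⟩ : ∃ r : Fin 4 → K,
    r = ![u (k.succAbove 0), u (k.succAbove 1), r2 0, r2 1] := ⟨_, rfl⟩
  have hrL : ∀ i, r i ∈ adjoin ℂ (Set.range r) := fun i => subset_adjoin _ _ ⟨i, rfl⟩
  have hL0L : L0 ≤ adjoin ℂ (Set.range r) := by
    rw [hL0, adjoin_le_iff]
    rintro _ ⟨i, rfl⟩
    fin_cases i
    · have := hrL 0
      rw [hrdef] at this ⊢
      exact this
    · have := hrL 1
      rw [hrdef] at this ⊢
      exact this
  have hr2L : ∀ i, r2 i ∈ adjoin ℂ (Set.range r) := by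
    intro i
    fin_cases i
    · have := hrL 2
      rw [hrdef] at this ⊢
      exact this
    · have := hrL 3
      rw [hrdef] at this ⊢
      exact this
  have hYL := hr _ hL0L hr2L
  have hτL : τ ∈ adjoin ℂ (Set.range r) := by
    have h1 := hYL 0
    have h2 : cx z (σ • y) 0 = z 0 := rfl
    rw [h2, hz0, mul_one] at h1
    exact h1
  have hYL' : ∀ i, cx z (σ • y) i ∈ adjoin ℂ (Set.range r) := by
    intro i
    have h1 := mul_mem (inv_mem hτL) (hYL i)
    rwa [← mul_assoc, inv_mul_cancel₀ hτ, one_mul] at h1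
  refine ⟨r, σ, hσ0, ?_, ?_⟩
  · intro i
    have h1 := hYL' i.castSucc
    rwa [cx_castSucc] at h1
  · intro i
    rcases Fin.eq_castSucc_or_eq_last i with ⟨j, rfl⟩ | h3
    · have h1 : u j = σ * y j.castSucc := by rw [hu]; rfl
      rw [← h1]
      exact hL0L (huL j)
    · have h1 := hYL' 3
      have h2 : cx z (σ • y) 3 = σ * y 3 := rfl
      rw [h2] at h1
      rw [h3]
      exact h1

end Pool.Agent.Helper89.VE
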