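import Pool.Agent.Helper89.VE.St.Stubs

set_option autoImplicit false

namespace Pool.Agent.Helper89.VE

open MvPolynomial Pool.Agent.Helper29.HP Pool.Agent.Helper16

/-- A cubic fourfold containing a plane whose quadric surface bundle is similar to the one of a
Verra fourfold with trivial Brauer class of the second projection is rational. -/
theorem main_verra {c : Cub (I6 → ℂ)} (hP : c.Iso P0) (hirr : Irreducible c.disc) {a : Cof}
    (ha : a.Symm) (hdet : (MX a).det = c.disc) (μ : P3) {n : ℕ} (hμ : μ.IsHomogeneous n)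
    (hμδ : ¬ c.disc ∣ μ)
    (hsp : ∀ π : P3, Irreducible π → π ∣ μ → ∃ g h : P3, ¬ π ∣ h ∧ π ∣ g ^ 2 - c.disc * h ^ 2)
    (i : Fin 4) (j : Fin 3) (s : P3)
    (hi : ¬ c.disc ∣ (c.Nm (X : Fin 3 → P3)).adjugate i i)
    (hj : ¬ c.disc ∣ (MX a).adjugate j j)
    (hs : c.disc ∣ s ^ 2 - μ * (c.Nm (X : Fin 3 → P3)).adjugate i i * (MX a).adjugate j j)
    (hirr2 : Irreducible (NU a).det) (μ' : P3) {n' : ℕ} (hμ' : μ'.IsHomogeneous n')
    (hμδ' : ¬ (NU a).det ∣ μ')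
    (hsp' : ∀ π : P3, Irreducible π → π ∣ μ' →
      ∃ g h : P3, ¬ π ∣ h ∧ π ∣ g ^ 2 - (NU a).det * h ^ 2)
    (k : Fin 3) (s' : P3) (hk : ¬ (NU a).det ∣ (NU a).adjugate k k)
    (hs' : (NU a).det ∣ s' ^ 2 - μ' * (NU a).adjugate k k) : c.Rat4 := by
  rcases ve_sim hirr ha hdet μ hμ hμδ hsp i j s hi hj hs with ⟨y, hy, hy0⟩ | ⟨Ψ, ν, hν, hΨ, h⟩
  · exact rat4_of_iso hP y hy hy0
  · obtain ⟨d, e, he0, hed, hee⟩ := ve_section ha hirr2 μ' hμ' hμδ' hsp' k s' hk hs'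
    intro K _ _ x hx
    obtain ⟨z, y, hz0, hy0, hzy, hgen, D, m, hD, hDh, htr⟩ := ve_bir hP (VX a) Ψ ν hν hΨ h x hx
    obtain ⟨r, σ, hσ, hz, hy⟩ := vrat ha z y hz0 hy0 hzy e hed hee he0 hirr2.ne_zero D hD hDh htr
    obtain ⟨τ, hτ, hx'⟩ := hgen _ σ hz hσ hy
    exact ⟨r, τ, hτ, hx'⟩

end Pool.Agent.Helper89.VE
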