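import Pool.Agent.Helper89.VE.Main

set_option autoImplicit false

namespace Pool.Agent.Helper89.VE

open MvPolynomial Pool.Agent.Helper29.HP Pool.Agent.Helper16

/-- scaling of the coefficients -/
def Cof.smul (t : ℂ) (a : Cof) : Cof := fun i j k l => t * a i j k l

theorem MX_smul (t : ℂ) (a : Cof) : MX (a.smul t) = (C t : P3) • MX a := by
  ext1 k l
  simp only [MX, Cof.smul, Matrix.of_apply, Matrix.smul_apply, smul_eq_mul, Finset.mul_sum, C_mul]
  exact Finset.sum_congr rfl fun i _ => Finset.sum_congr rfl fun j _ => by ring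

theorem NU_smul (t : ℂ) (a : Cof) : NU (a.smul t) = (C t : P3) • NU a := by
  ext1 k l
  simp only [NU, Cof.smul, Matrix.of_apply, Matrix.smul_apply, smul_eq_mul, Finset.mul_sum, C_mul]
  exact Finset.sum_congr rfl fun i _ => Finset.sum_congr rfl fun j _ => by ring

theorem smul_symm {t : ℂ} {a : Cof} (ha : a.Symm) : (a.smul t).Symm :=
  ⟨fun i j k l => by simp only [Cof.smul]; rw [ha.1], fun i j k l => by
    simp only [Cof.smul]; rw [ha.2]⟩

theorem dvd_C_mul {t : ℂ} (ht : t ≠ 0) {p q : P3} : p ∣ C t * q ↔ p ∣ q := by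
  constructor
  · intro h
    have h1 := h.mul_left (C t⁻¹)
    rwa [← mul_assoc, ← C_mul, inv_mul_cancel₀ ht, C_1, one_mul] at h1
  · exact fun h => h.mul_left _

theorem C_mul_dvd {t : ℂ} (ht : t ≠ 0) {p q : P3} : C t * p ∣ q ↔ p ∣ q := by
  constructor
  · exact fun h => (dvd_mul_left _ _).trans h
  · rintro ⟨r, rfl⟩
    refine ⟨C t⁻¹ * r, ?_⟩
    have : (C t : P3) * C t⁻¹ = 1 := by rw [← C_mul, mul_inv_cancel₀ ht, C_1]
    linear_combination (-(p * r)) * this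

/-- `main_verra` with the determinants equal up to a constant -/
theorem main_verra' {c : Cub (I6 → ℂ)} (hP : c.Iso P0) (hirr : Irreducible c.disc) {a : Cof}
    (ha : a.Symm) (κ : ℂ) (hκ : κ ≠ 0) (hdet : (MX a).det = C κ * c.disc)
    (μ : P3) {n : ℕ} (hμ : μ.IsHomogeneous n) (hμδ : ¬ c.disc ∣ μ)
    (hsp : ∀ π : P3, Irreducible π → π ∣ μ → ∃ g h : P3, ¬ π ∣ h ∧ π ∣ g ^ 2 - c.disc * h ^ 2)
    (i : Fin 4) (j : Fin 3) (s : P3)
    (hi : ¬ c.disc ∣ (c.Nm (X : Fin 3 → P3)).adjugate i i)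
    (hj : ¬ c.disc ∣ (MX a).adjugate j j)
    (hs : c.disc ∣ s ^ 2 - μ * (c.Nm (X : Fin 3 → P3)).adjugate i i * (MX a).adjugate j j)
    (hirr2 : Irreducible (NU a).det) (μ' : P3) {n' : ℕ} (hμ' : μ'.IsHomogeneous n')
    (hμδ' : ¬ (NU a).det ∣ μ')
    (hsp' : ∀ π : P3, Irreducible π → π ∣ μ' →
      ∃ g h : P3, ¬ π ∣ h ∧ π ∣ g ^ 2 - (NU a).det * h ^ 2)
    (k : Fin 3) (s' : P3) (hk : ¬ (NU a).det ∣ (NU a).adjugate k k)
    (hs' : (NU a).det ∣ s' ^ 2 - μ' * (NU a).adjugate k k) : c.Rat4 := by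
  obtain ⟨t, ht⟩ := IsAlgClosed.exists_pow_nat_eq κ⁻¹ (n := 3) (by norm_num)
  have ht0 : t ≠ 0 := by
    rintro rfl
    rw [zero_pow (by norm_num)] at ht
    exact inv_ne_zero hκ ht.symm
  have ht3 : t ^ 3 ≠ 0 := pow_ne_zero _ ht0
  have ht2 : t ^ 2 ≠ 0 := pow_ne_zero _ ht0
  obtain ⟨r, hr⟩ := IsAlgClosed.exists_pow_nat_eq (t ^ 3) (n := 2) (by norm_num)
  have hdM : (MX (a.smul t)).det = c.disc := by
    rw [MX_smul, Matrix.det_smul, Fintype.card_fin, hdet, ← mul_assoc, ← C_pow, ← C_mul, ht,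
      inv_mul_cancel₀ hκ, C_1, one_mul]
  have haM : ∀ j, (MX (a.smul t)).adjugate j j = C (t ^ 2) * (MX a).adjugate j j := by
    intro j
    rw [MX_smul, Matrix.adjugate_smul, Fintype.card_fin, Matrix.smul_apply, smul_eq_mul, C_pow]
  have hdN : (NU (a.smul t)).det = C (t ^ 3) * (NU a).det := by
    rw [NU_smul, Matrix.det_smul, Fintype.card_fin, C_pow]
  have haN : ∀ j, (NU (a.smul t)).adjugate j j = C (t ^ 2) * (NU a).adjugate j j := by
    intro j
    rw [NU_smul, Matrix.adjugate_smul, Fintype.card_fin, Matrix.smul_apply, smul_eq_mul, C_pow]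
  refine main_verra hP hirr (smul_symm ha) hdM μ hμ hμδ hsp i j (C t * s) hi ?_ ?_ ?_ μ' hμ' ?_
    ?_ k (C t * s') ?_ ?_
  · rw [haM, dvd_C_mul ht2]; exact hj
  · have : (C t * s) ^ 2 - μ * (c.Nm (X : Fin 3 → P3)).adjugate i i *
        (MX (a.smul t)).adjugate j j = C (t ^ 2) * (s ^ 2 -
          μ * (c.Nm (X : Fin 3 → P3)).adjugate i i * (MX a).adjugate j j) := by
      rw [haM, C_pow]; ring
    rw [this]
    exact hs.mul_left _
  · rw [hdN]
    have hu : IsUnit (C (t ^ 3) : P3) := (isUnit_iff_ne_zero.mpr ht3).map C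
    exact (irreducible_isUnit_mul hu).mpr hirr2
  · rw [hdN, C_mul_dvd ht3]; exact hμδ'
  · intro π hπ hd
    obtain ⟨g, h, h1, h2⟩ := hsp' π hπ hd
    refine ⟨C r * g, h, h1, ?_⟩
    have : (C r * g) ^ 2 - (NU (a.smul t)).det * h ^ 2 = C (t ^ 3) *
        (g ^ 2 - (NU a).det * h ^ 2) := by
      rw [hdN, mul_pow, ← C_pow, hr]; ring
    rw [this]
    exact h2.mul_left _
  · rw [hdN, haN, C_mul_dvd ht3, dvd_C_mul ht2]; exact hk
  · have : (C t * s') ^ 2 - μ' * (NU (a.smul t)).adjugate k k = C (t ^ 2) *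
        (s' ^ 2 - μ' * (NU a).adjugate k k) := by
      rw [haN, C_pow]; ring
    rw [hdN, C_mul_dvd ht3, this]
    exact hs'.mul_left _

end Pool.Agent.Helper89.VE
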